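import Pool.Agent.helper96.LK.SpecM

open PowerSeries Filter

noncomputable section

namespace Pool.Agent.LK

open Pool.Agent.helper59.LC Pool.Agent.helper59.LD

theorem CSW_conj_qc (q : ℚ) : starRingEnd ℂ (qc ℂ q) = qc ℂ q := by
  rw [qc]
  exact map_ratCast (starRingEnd ℂ) q

theorem CSW_xP (a : ℕ) : csw (xP ℂ a) = yP ℂ a := by
  rw [xP, yP, map_add, map_one, map_mul, map_sub, map_mul, csw_C, csw_C, csw_X, csw_X,
    CSW_conj_qc, map_natCast]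
  rfl

theorem CSW_yP (a : ℕ) : csw (yP ℂ a) = xP ℂ a := by
  rw [← CSW_xP, csw_csw]

theorem CSW_td_xP (a : ℕ) : TD (xP ℂ a) 1 := by
  rw [xP]
  refine (td_one 1).add ?_
  have h1 : TD (MvPolynomial.C (qc ℂ (1 / ((a : ℚ) ^ 2 - 1))) *
    (MvPolynomial.C (a : ℂ) * MvPolynomial.X 0 - MvPolynomial.X 1) :
      MvPolynomial (Fin 2) ℂ) (0 + 1) := by
    refine (td_C _ 0).mul (TD.sub ?_ (td_X 1 le_rfl))
    have h2 : TD (MvPolynomial.C (a : ℂ) * MvPolynomial.X 0 :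
      MvPolynomial (Fin 2) ℂ) (0 + 1) := (td_C _ 0).mul (td_X 0 le_rfl)
    exact h2
  exact h1

theorem CSW_td_yP (a : ℕ) : TD (yP ℂ a) 1 := by
  rw [← CSW_xP]
  exact (CSW_td_xP a).csw

theorem CSW_td_fx (a i j : ℕ) (t : Fin 2) {d : ℕ} (h : i + j ≤ d) : TD (fx ℂ a i j t) d := by
  rw [fx]
  have h1 : TD (xP ℂ a ^ i * yP ℂ a ^ j * (if t = 0 then MvPolynomial.C (a : ℂ) else 1) :
      MvPolynomial (Fin 2) ℂ) (i * 1 + j * 1 + 0) := by
    refine (((CSW_td_xP a).pow i).mul ((CSW_td_yP a).pow j)).mul ?_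
    split_ifs
    · exact td_C _ 0
    · exact td_one 0
  exact h1.mono (by omega)

theorem CSW_td_fy (a i j : ℕ) (t : Fin 2) {d : ℕ} (h : i + j ≤ d) : TD (fy ℂ a i j t) d := by
  rw [fy]
  have h1 : TD (xP ℂ a ^ i * yP ℂ a ^ j * (if t = 0 then 1 else MvPolynomial.C (a : ℂ)) :
      MvPolynomial (Fin 2) ℂ) (i * 1 + j * 1 + 0) := by
    refine (((CSW_td_xP a).pow i).mul ((CSW_td_yP a).pow j)).mul ?_
    split_ifs
    · exact td_one 0
    · exact td_C _ 0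
  exact h1.mono (by omega)

theorem CSW_td_fc (a : ℕ) (c1 c2 : ℚ) (Q : Pt) (t : Fin 2) {d : ℕ} (h1 : 1 ≤ Q.1) (h2 : 1 ≤ Q.2)
    (h : Q.1 + Q.2 ≤ d + 1) : TD (fc ℂ a c1 c2 Q t) d := by
  rw [fc]
  refine TD.add ?_ ?_
  · have h3 : TD (MvPolynomial.C (qc ℂ c1) * fx ℂ a Q.1.toNat (Q.2 - 1).toNat t) (0 + d) :=
      (td_C _ 0).mul (CSW_td_fx a _ _ t (by omega))
    rwa [zero_add] at h3
  · have h3 : TD (MvPolynomial.C (qc ℂ c2) * fy ℂ a (Q.1 - 1).toNat Q.2.toNat t) (0 + d) :=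
      (td_C _ 0).mul (CSW_td_fy a _ _ t (by omega))
    rwa [zero_add] at h3

theorem CSW_td_TA (a : ℕ) (Q : Pt) (t : Fin 2) {d : ℕ} (h1 : 0 ≤ Q.1) (h2 : 0 ≤ Q.2)
    (h : Q.1 + Q.2 ≤ d + 1) : TD (TA ℂ a Q t) d := by
  rw [TA]
  split_ifs with h3 h4
  · exact CSW_td_fc a _ _ Q t h3.1 h3.2 h
  · exact CSW_td_fx a _ _ t (by omega)
  · exact CSW_td_fy a _ _ t (by omega)

theorem CSW (hPTS : PTS_stmt) : CSW_stmt := by
  refine ⟨fun a => ⟨?_, ?_, ?_, ?_, ?_⟩, ?_⟩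
  · intro i
    fin_cases i
    · have h0 : pT ℂ a 0 = xP ℂ a ^ a * yP ℂ a - 1 - MvPolynomial.X 0 := by
        rw [pT, if_pos rfl]
      have h1 : pT ℂ a 1 = xP ℂ a * yP ℂ a ^ a - 1 - MvPolynomial.X 1 := by
        rw [pT, if_neg (by decide)]
      change csw (pT ℂ a 0) = pT ℂ a 1
      rw [h0, h1, map_sub, map_sub, map_mul, map_pow, map_one, CSW_xP, CSW_yP, csw_X]
      change yP ℂ a ^ a * xP ℂ a - 1 - MvPolynomial.X 1 = _
      ring
    · have h0 : pT ℂ a 0 = xP ℂ a ^ a * yP ℂ a - 1 - MvPolynomial.X 0 := by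
        rw [pT, if_pos rfl]
      have h1 : pT ℂ a 1 = xP ℂ a * yP ℂ a ^ a - 1 - MvPolynomial.X 1 := by
        rw [pT, if_neg (by decide)]
      change csw (pT ℂ a 1) = pT ℂ a 0
      rw [h0, h1, map_sub, map_sub, map_mul, map_pow, map_one, CSW_xP, CSW_yP, csw_X]
      change yP ℂ a * xP ℂ a ^ a - 1 - MvPolynomial.X 0 = _
      ring
  · rw [den, map_pow, map_mul, CSW_xP, CSW_yP, mul_comm]
  · rw [den, map_pow, map_mul, xP, yP]
    simp
  · intro i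
    fin_cases i
    · have h0 : PP (pT ℂ a) 0 = xP ℂ a ^ a * yP ℂ a - 1 := by
        rw [PP, pT, if_pos rfl]
        ring
      change TD (PP (pT ℂ a) 0) (a + 1)
      rw [h0]
      refine TD.sub ?_ (td_one _)
      have h1 : TD (xP ℂ a ^ a * yP ℂ a) (a * 1 + 1) :=
        ((CSW_td_xP a).pow a).mul (CSW_td_yP a)
      exact h1.mono (by omega)
    · have h0 : PP (pT ℂ a) 1 = xP ℂ a * yP ℂ a ^ a - 1 := by
        rw [PP, pT, if_neg (by decide)]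
        ring
      change TD (PP (pT ℂ a) 1) (a + 1)
      rw [h0]
      refine TD.sub ?_ (td_one _)
      have h1 : TD (xP ℂ a * yP ℂ a ^ a) (1 + a * 1) :=
        (CSW_td_xP a).mul ((CSW_td_yP a).pow a)
      exact h1.mono (by omega)
  · rw [den]
    have h1 : TD ((xP ℂ a * yP ℂ a) ^ a) (a * (1 + 1)) :=
      ((CSW_td_xP a).mul (CSW_td_yP a)).pow a
    exact h1.mono (by omega)
  · intro a dl ha hdl i t
    obtain ⟨hA, hB⟩ := hPTS (a : ℤ) (dl : ℤ) (by exact_mod_cast ha) (by positivity)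
      (by exact_mod_cast hdl)
    rcases i with _ | u | u
    · exact CSW_td_fx a 1 0 t (by omega)
    · obtain ⟨h1, h2, h3, h4⟩ := hA u.1 u.2
      exact CSW_td_TA a _ t h1 h2 (by push_cast; linarith)
    · obtain ⟨h1, h2, h3⟩ := hB u.1 u.2
      exact CSW_td_fc a _ _ _ t h1 h2 (by push_cast; linarith)

end Pool.Agent.LK
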